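import Mathlib
import Pool.Agent.H16.Cap3

set_option autoImplicit false

namespace Pool.Agent.Results.MP_edb722_lc.NPHard

open Pool.Agent.H11.PT Pool.Agent.H16.Cap

theorem result : NPHard fun y : List Pat × List Bool × List Bool =>
    (y.1 ≠ [] ∧ 0 < bin y.2.2) ∧ (bin y.2.1 : ℝ) / (bin y.2.2 : ℝ) ≤ cap y.1 := hard.npHard

end Pool.Agent.Results.MP_edb722_lc.NPHard
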